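import Pool.Agent.E8helper27.CB.Stm2

/-! The triangle inequality for the angles given by a Gram matrix (project CB2, piece ANG). -/

set_option autoImplicit false

namespace E8h27.CB

theorem psd_three {V : Type} [Fintype V] {R : V → V → ℝ} (h : Psd R) (i j k : V) (a b c : ℝ) :
    0 ≤ a * a * R i i + b * b * R j j + c * c * R k k + 2 * (a * b * R i j) + 2 * (b * c * R j k)
      + 2 * (a * c * R i k) := by
  classical
  have h1 := h.2 (fun v => (if v = i then a else 0) + (if v = j then b else 0)
    + (if v = k then c else 0))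
  have h2 : (∑ v, ∑ w, ((if v = i then a else 0) + (if v = j then b else 0)
      + (if v = k then c else 0)) * R v w * ((if w = i then a else 0) + (if w = j then b else 0)
      + (if w = k then c else 0))) =
      a * a * R i i + b * b * R j j + c * c * R k k + (a * b * R i j + a * b * R j i)
      + (b * c * R j k + b * c * R k j) + (a * c * R i k + a * c * R k i) := by
    simp only [mul_add, add_mul, Finset.sum_add_distrib, mul_ite, ite_mul, mul_zero, zero_mul,
      Finset.sum_ite_eq', Finset.mem_univ, if_true]
    ring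

  rw [h2, h.1 j i, h.1 k j, h.1 k i] at h1
  linarith

theorem t_ANG : S_ANG := by
  intro V _ R hR hd i j k
  have h3 := psd_three hR i j k
  rw [hd i, hd j, hd k] at h3
  set p := R i j with hp
  set q := R j k with hq
  set r := R i k with hr
  have hp1 : p * p ≤ 1 := by
    have := h3 (-p) 1 0
    nlinarith [this]
  have hq1 : q * q ≤ 1 := by
    have := h3 0 1 (-q)
    nlinarith [this]
  obtain ⟨D, hD⟩ : ∃ D, D = r - p * q := ⟨_, rfl⟩
  have hquad : ∀ s t : ℝ, 0 ≤ s * s * (1 - p * p) + t * t * (1 - q * q) + 2 * (s * t * D) := by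
    intro s t
    have := h3 s (-(s * p + t * q)) t
    rw [hD]
    nlinarith [this]
  have hA : 0 ≤ 1 - p * p := by linarith
  have hC : 0 ≤ 1 - q * q := by linarith
  have hDD : D * D ≤ (1 - p * p) * (1 - q * q) := by
    rcases hA.lt_or_eq with h | h
    · have := hquad (-D) (1 - p * p)
      by_contra hcon
      push Not at hcon
      nlinarith [mul_pos h (sub_pos.mpr hcon), this]
    · have := hquad (-((1 - q * q) + 1)) D
      rw [← h] at this ⊢
      have h5 : D * D * ((1 - q * q) + 2) ≤ 0 := by nlinarith [this]
      have h6 : 0 ≤ D * D := mul_self_nonneg D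
      nlinarith [mul_nonneg h6 hC]
  have hpl : -1 ≤ p := by nlinarith [hp1]
  have hpu : p ≤ 1 := by nlinarith [hp1]
  have hql : -1 ≤ q := by nlinarith [hq1]
  have hqu : q ≤ 1 := by nlinarith [hq1]
  by_cases hsum : Real.arccos p + Real.arccos q ≤ Real.pi
  · have hcos : Real.cos (Real.arccos p + Real.arccos q) ≤ r := by
      rw [Real.cos_add, Real.cos_arccos hpl hpu, Real.cos_arccos hql hqu]
      have hsn : 0 ≤ Real.sin (Real.arccos p) * Real.sin (Real.arccos q) :=
        mul_nonneg (Real.sin_nonneg_of_nonneg_of_le_pi (Real.arccos_nonneg _) (Real.arccos_le_pi _))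
          (Real.sin_nonneg_of_nonneg_of_le_pi (Real.arccos_nonneg _) (Real.arccos_le_pi _))
      have hs2 : (Real.sin (Real.arccos p) * Real.sin (Real.arccos q)) ^ 2 =
          (1 - p * p) * (1 - q * q) := by
        rw [mul_pow, Real.sin_sq, Real.sin_sq, Real.cos_arccos hpl hpu, Real.cos_arccos hql hqu]
        ring
      have hDle : -D ≤ Real.sin (Real.arccos p) * Real.sin (Real.arccos q) := by
        apply le_of_sq_le_sq' _ hsn
        rw [hs2]
        nlinarith [hDD]
      rw [hD] at hDle
      linarith
    calc Real.arccos r ≤ Real.arccos (Real.cos (Real.arccos p + Real.arccos q)) :=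
          Real.arccos_le_arccos hcos
      _ = Real.arccos p + Real.arccos q :=
          Real.arccos_cos (add_nonneg (Real.arccos_nonneg _) (Real.arccos_nonneg _)) hsum
  · push Not at hsum
    exact (Real.arccos_le_pi _).trans hsum.le
where
  le_of_sq_le_sq' {x y : ℝ} (h : x ^ 2 ≤ y ^ 2) (hy : 0 ≤ y) : x ≤ y := by
    by_contra hc
    push Not at hc
    nlinarith

end E8h27.CB
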